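import Mathlib

/-! Bound for the functionals `y W^N` on the small space from the bound for `y u^k`. -/

namespace Pool.Agent.P.MP_f981b0_an.IS14

variable {E F : Type*} [NormedAddCommGroup E] [NormedSpace ℂ E] [NormedAddCommGroup F]
  [NormedSpace ℂ F]

theorem pow_inter {A : E →L[ℂ] E} {B : F →L[ℂ] F} {J : F →L[ℂ] E} (h : ∀ g, A (J g) = J (B g))
    (n : ℕ) (g : F) : (A ^ n) (J g) = J ((B ^ n) g) := by
  induction n generalizing g with
  | zero => simp
  | succ n ih => rw [pow_succ, pow_succ, mul_apply_eq_comp, h, ih]; rfl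

theorem norm_pow_apply {B : F →L[ℂ] F} {c : ℝ} (h : ‖B‖ ≤ c) (n : ℕ) (g : F) :
    ‖(B ^ n) g‖ ≤ c ^ n * ‖g‖ := by
  induction n generalizing g with
  | zero => simp
  | succ n ih =>
    rw [pow_succ, mul_apply_eq_comp, pow_succ, mul_assoc]
    exact (ih _).trans (mul_le_mul_of_nonneg_left (B.le_of_opNorm_le h g)
      (pow_nonneg ((norm_nonneg _).trans h) _))

theorem y3_aux (V R : E →L[ℂ] E) (VF : F →L[ℂ] F) (J : F →L[ℂ] E) (y : E →L[ℂ] ℂ) (τ M : ℝ)
    (a : ℕ) (h0 : 0 < τ) (h1 : τ ≤ 1) (hR : (V + (τ : ℂ) • 1) * R = 1) (hc : Commute V R)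
    (hJ : ∀ g, V (J g) = J (VF g)) (hV : ‖VF‖ ≤ 1) (hM : 0 ≤ M)
    (hy : ∀ g, ‖y (J g)‖ ≤ M * ‖g‖) (hu : ∀ g, ‖y (((V * R) ^ a) (J g))‖ ≤ M * ‖g‖) (n : ℕ) :
    ∀ i j, i ≤ a → j ≤ a → a - i + j = n → ∀ g,
      ‖y ((V ^ i * R ^ j) (J g))‖ ≤ (2 / τ) ^ n * 2 ^ a * M * ‖g‖ := by
  have h2 : (1 : ℝ) ≤ 2 / τ := by
    rw [le_div_iff₀ h0]
    linarith
  have hS : Commute (V + (τ : ℂ) • 1) R := hc.add_left ((Commute.one_left R).smul_left _)
  induction n with
  | zero =>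
    intro i j hi hj hn g
    obtain rfl : j = 0 := by omega
    rw [pow_zero, mul_one, pow_inter hJ, pow_zero, one_mul]
    refine (hy _).trans ?_
    have a1 := norm_pow_apply hV i g
    rw [one_pow, one_mul] at a1
    have a2 : (1 : ℝ) ≤ 2 ^ a := one_le_pow₀ one_le_two
    exact mul_le_mul (le_mul_of_one_le_left hM a2) a1 (norm_nonneg _) (by positivity)
  | succ n ih =>
    intro i j hi hj hn g
    have b1 : (1 : ℝ) ≤ (2 / τ) ^ (n + 1) := one_le_pow₀ h2
    have b2 : (1 : ℝ) ≤ 2 ^ a := one_le_pow₀ one_le_two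
    rcases j with _ | j
    · rw [pow_zero, mul_one, pow_inter hJ]
      refine (hy _).trans ?_
      have a1 := norm_pow_apply hV i g
      rw [one_pow, one_mul] at a1
      exact mul_le_mul (le_mul_of_one_le_left hM (one_le_mul_of_one_le_of_one_le b1 b2)) a1
        (norm_nonneg _) (by positivity)
    rcases hi.eq_or_lt with rfl | hi'
    · obtain ⟨k, hk⟩ := Nat.exists_eq_add_of_le hj
      have e1 : V ^ i * R ^ (j + 1) = (V * R) ^ i * (V + (τ : ℂ) • 1) ^ k := by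
        have e2 : R ^ k * (V + (τ : ℂ) • 1) ^ k = 1 := by
          rw [← hS.symm.mul_pow, ← hS.eq, hR, one_pow]
        rw [hc.mul_pow, mul_assoc]
        congr 1
        conv_rhs => rw [hk, pow_add, mul_assoc, e2, mul_one]
      have e3 : ∀ g, (V + (τ : ℂ) • (1 : E →L[ℂ] E)) (J g) =
          J ((VF + (τ : ℂ) • (1 : F →L[ℂ] F)) g) := by
        intro g
        simp [hJ]
      have e4 : ‖VF + (τ : ℂ) • (1 : F →L[ℂ] F)‖ ≤ 2 := by
        refine (norm_add_le _ _).trans ?_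
        rw [norm_smul, Complex.norm_real, Real.norm_of_nonneg h0.le]
        have := mul_le_mul h1 (ContinuousLinearMap.norm_id_le (𝕜 := ℂ) (E := F))
          (norm_nonneg _) zero_le_one
        have e5 : (1 : F →L[ℂ] F) = ContinuousLinearMap.id ℂ F := rfl
        rw [e5]
        linarith
      rw [e1, mul_apply_eq_comp, pow_inter e3]
      refine (hu _).trans ?_
      have a1 := norm_pow_apply e4 k g
      have a2 : (2 : ℝ) ^ k ≤ 2 ^ i := pow_le_pow_right₀ one_le_two (by omega)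
      calc _ ≤ M * (2 ^ i * ‖g‖) := mul_le_mul_of_nonneg_left
            (a1.trans (mul_le_mul_of_nonneg_right a2 (norm_nonneg _))) hM
        _ = 1 * (2 ^ i * M * ‖g‖) := by ring
        _ ≤ (2 / τ) ^ (n + 1) * (2 ^ i * M * ‖g‖) :=
          mul_le_mul_of_nonneg_right b1 (by positivity)
        _ = _ := by ring
    · have e1 : (τ : ℂ) • (V ^ i * R ^ (j + 1)) = V ^ i * R ^ j - V ^ (i + 1) * R ^ (j + 1) := by
        have e2 : (τ : ℂ) • R = 1 - V * R := by
          rw [← hR, add_mul, smul_mul_assoc, one_mul, add_sub_cancel_left]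
        rw [pow_succ' R, ← mul_smul_comm, ← smul_mul_assoc, e2, sub_mul, one_mul, mul_sub,
          pow_succ V, mul_assoc, mul_assoc]
      have a1 := ih i j hi (by omega) (by omega) g
      have a2 := ih (i + 1) (j + 1) hi' hj (by omega) g
      have a3 : τ * ‖y ((V ^ i * R ^ (j + 1)) (J g))‖ =
          ‖y ((V ^ i * R ^ j) (J g)) - y ((V ^ (i + 1) * R ^ (j + 1)) (J g))‖ := by
        rw [← map_sub, ← sub_apply, ← e1, smul_apply,
          map_smul, norm_smul, Complex.norm_real, Real.norm_of_nonneg h0.le]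
      have a4 := norm_sub_le (y ((V ^ i * R ^ j) (J g))) (y ((V ^ (i + 1) * R ^ (j + 1)) (J g)))
      refine le_of_mul_le_mul_left ?_ h0
      rw [a3, pow_succ (2 / τ)]
      calc _ ≤ 2 * ((2 / τ) ^ n * 2 ^ a * M * ‖g‖) := by linarith
        _ = _ := by field_simp

/-- (Y3): with `W = V R`, `R = (V + τ)⁻¹`, `u = W ^ a`. -/
theorem y3 (V R : E →L[ℂ] E) (VF : F →L[ℂ] F) (J : F →L[ℂ] E) (y : E →L[ℂ] ℂ) (τ M : ℝ)
    (a : ℕ) (ha : 1 ≤ a) (h0 : 0 < τ) (h1 : τ ≤ 1) (hR : (V + (τ : ℂ) • 1) * R = 1)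
    (hc : Commute V R) (hJ : ∀ g, V (J g) = J (VF g)) (hV : ‖VF‖ ≤ 1) (hM : 0 ≤ M)
    (hu : ∀ k g, ‖y ((((V * R) ^ a) ^ k) (J g))‖ ≤ M * ‖g‖) (N : ℕ) (g : F) :
    ‖y (((V * R) ^ N) (J g))‖ ≤ (4 / τ) ^ a * M * ‖g‖ := by
  have hi : N % a ≤ a := (Nat.mod_lt N ha).le
  have key := y3_aux V R VF J (y.comp (((V * R) ^ a) ^ (N / a))) τ M a h0 h1 hR hc hJ hV hM
    (hu _) (fun g => by
      have := hu (N / a + 1) g
      rwa [pow_succ] at this) a (N % a) (N % a) hi hi (by omega) g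
  rw [← hc.mul_pow, ← mul_pow, ContinuousLinearMap.comp_apply, ← mul_apply_eq_comp,
    ← pow_mul, ← pow_add, Nat.div_add_mod] at key
  convert key using 4
  ring

end Pool.Agent.P.MP_f981b0_an.IS14
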